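import Mathlib
import Pool.Agent.N178.HX.StmF
import Pool.Agent.R915.H2

/-!
# The Hodge conjecture for products of CM types in independent blocks

Project GHC3 (helper178), task HCB (subtask 1545).
-/

set_option linter.unusedSectionVars false

namespace Pool.Agent.N615.HX

open Finset Matrix Module NumberField Pool.Agent.W437.HC Pool.Agent.W437.HD Pool.Agent.Y90
open Pool.Agent.R915 Pool.Agent.N178.HW Pool.Agent.N178.HX
open Pool.Agent.H204R3.CM (IsHodge IsCMType)
open Pool.Agent.W547.KB (CMPair CMAV single)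
open Pool.Agent.W547.LN (SameType)
open Pool.Agent.W547.UB (NonDegenerate GoodBlock IndependentBlocks)
open Pool.Agent.N830.HC (HasCMultIn AllowedIn Allowed Frame av polar)

noncomputable section

theorem sameType_refl (P : CMPair) : SameType P P :=
  ⟨RingEquiv.refl _, fun _ => Iff.rfl⟩

theorem conj_conj {E : Type} [Field E] (φ : E →+* ℂ) :
    ComplexEmbedding.conjugate (ComplexEmbedding.conjugate φ) = φ := star_star φ

/-- The exchange of `φ` and its complex conjugate in a CM type. -/
theorem swap_type {E : Type} [Field E] {Φ : Set (E →+* ℂ)} (h : IsCMType Φ) {φ : E →+* ℂ}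
    (hφ : φ ∈ Φ) : IsCMType {ψ : E →+* ℂ | ψ ≠ φ ∧ (ψ ∈ Φ ∨ ψ = ComplexEmbedding.conjugate φ)} := by
  have hne : ComplexEmbedding.conjugate φ ∉ Φ := (h φ).1 hφ
  have hne' : ComplexEmbedding.conjugate φ ≠ φ := fun e => hne (by rw [e]; exact hφ)
  intro ψ
  simp only [Set.mem_ofPred_eq]
  by_cases h1 : ψ = φ
  · subst h1
    constructor
    · rintro ⟨h2, -⟩
      exact absurd rfl h2
    · intro h2
      exact absurd ⟨hne', Or.inr rfl⟩ h2
  · by_cases h2 : ψ = ComplexEmbedding.conjugate φ
    · subst h2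
      constructor
      · rintro - ⟨h3, -⟩
        exact h3 (conj_conj φ)
      · intro _
        exact ⟨h1, Or.inr rfl⟩
    · have h3 : ComplexEmbedding.conjugate ψ ≠ φ := fun e => h2 (by rw [← e, conj_conj])
      have h4 : ComplexEmbedding.conjugate ψ ≠ ComplexEmbedding.conjugate φ := fun e => h1 (by
        rw [← conj_conj ψ, e, conj_conj])
      constructor
      · rintro ⟨-, h5 | h5⟩ ⟨-, h6 | h6⟩
        · exact (h ψ).1 h5 h6
        · exact h4 h6
        · exact h2 h5
        · exact h2 h5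
      · intro h5
        refine ⟨h1, Or.inl ((h ψ).2 fun h6 => h5 ⟨h3, Or.inl h6⟩)⟩

open Classical in
/-- The relation for a family of CM types. -/
theorem rel_type {K : Type} [Fintype K] {T : K → CMPair} {B : Set K} (hS : SignB T B)
    (I : Type) [Fintype I] (f : I → K) (hf : ∀ i, f i ∈ B)
    (a : (i : I) → ((T (f i)).E →+* ℂ) → ℤ)
    (ha : ∀ τ : ℂ ≃+* ℂ, ∑ i, ∑ φ : (T (f i)).E →+* ℂ,
      a i φ * (if (τ : ℂ →+* ℂ).comp φ ∈ (T (f i)).Φ then 1 else -1) = 0)
    (Ψ : ∀ k, Set ((T k).E →+* ℂ)) (hΨ : ∀ k, IsCMType (Ψ k)) :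
    ∑ i, ∑ φ : (T (f i)).E →+* ℂ, a i φ * (if φ ∈ Ψ (f i) then 1 else -1) = 0 := by
  obtain ⟨τ, hτ⟩ := hS Ψ hΨ
  rw [← ha τ]
  refine Finset.sum_congr rfl fun i _ => Finset.sum_congr rfl fun φ _ => ?_
  congr 1
  exact if_congr (hτ (f i) (hf i) φ) rfl rfl

open Classical in
theorem nondeg_aux {K : Type} [Fintype K] {T : K → CMPair} {B : Set K} (hS : SignB T B)
    (I : Type) [Fintype I] (f : I → K) (hfi : Function.Injective f) (hf : ∀ i, f i ∈ B)
    (a : (i : I) → ((T (f i)).E →+* ℂ) → ℤ)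
    (ha : ∀ τ : ℂ ≃+* ℂ, ∑ i, ∑ φ : (T (f i)).E →+* ℂ,
      a i φ * (if (τ : ℂ →+* ℂ).comp φ ∈ (T (f i)).Φ then 1 else -1) = 0)
    (i : I) (φ : (T (f i)).E →+* ℂ) (hφ : φ ∈ (T (f i)).Φ) :
    a i (ComplexEmbedding.conjugate φ) = a i φ := by
  have hne : ComplexEmbedding.conjugate φ ∉ (T (f i)).Φ := ((T (f i)).isCMType φ).1 hφ
  have hne' : φ ≠ ComplexEmbedding.conjugate φ := fun e => hne (by rw [← e]; exact hφ)
  set Ψ : ∀ k, Set ((T k).E →+* ℂ) := fun k => (T k).Φ with hΨ
  set Ψ' : ∀ k, Set ((T k).E →+* ℂ) := Function.update Ψ (f i)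
    {ψ | ψ ≠ φ ∧ (ψ ∈ (T (f i)).Φ ∨ ψ = ComplexEmbedding.conjugate φ)} with hΨ'
  have e1 := rel_type hS I f hf a ha Ψ fun k => (T k).isCMType
  have e2 := rel_type hS I f hf a ha Ψ' fun k => by
    by_cases hk : k = f i
    · subst hk
      rw [hΨ', Function.update_self]
      exact swap_type (T (f i)).isCMType hφ
    · rw [hΨ', Function.update_of_ne hk]
      exact (T k).isCMType
  have e3 : ∑ j, ∑ ψ : (T (f j)).E →+* ℂ,
      (a j ψ * (if ψ ∈ Ψ (f j) then 1 else -1) - a j ψ * (if ψ ∈ Ψ' (f j) then 1 else -1)) = 0 := by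
    simp only [Finset.sum_sub_distrib]
    rw [e1, e2, sub_zero]
  rw [Finset.sum_eq_single i, Finset.sum_eq_add φ (ComplexEmbedding.conjugate φ) hne'] at e3
  · have m1 : φ ∈ Ψ (f i) := hφ
    have m2 : ComplexEmbedding.conjugate φ ∉ Ψ (f i) := hne
    have m3 : φ ∉ Ψ' (f i) := by
      rw [hΨ', Function.update_self]
      exact fun h => h.1 rfl
    have m4 : ComplexEmbedding.conjugate φ ∈ Ψ' (f i) := by
      rw [hΨ', Function.update_self]
      exact ⟨fun e => hne' e.symm, Or.inr rfl⟩
    rw [if_pos m1, if_neg m2, if_neg m3, if_pos m4] at e3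
    linarith
  · intro ψ _ hψ
    have m : (ψ ∈ Ψ (f i)) ↔ (ψ ∈ Ψ' (f i)) := by
      rw [hΨ', Function.update_self]
      constructor
      · exact fun h => ⟨hψ.1, Or.inl h⟩
      · rintro ⟨-, h | h⟩
        · exact h
        · exact absurd h hψ.2
    rw [if_congr m rfl rfl, sub_self]
  · intro h
    exact absurd (Finset.mem_univ _) h
  · intro h
    exact absurd (Finset.mem_univ _) h
  · intro j _ hj
    refine Finset.sum_eq_zero fun ψ _ => ?_
    have : Ψ' (f j) = Ψ (f j) := by
      rw [hΨ', Function.update_of_ne (fun e => hj (hfi e))]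
    rw [this, sub_self]
  · intro h
    exact absurd (Finset.mem_univ _) h

theorem finrank_dvd {E L : Type} [Field E] [NumberField E] [Field L] [NumberField L]
    (f : E →+* L) : finrank ℚ E ∣ finrank ℚ L := by
  let _ := f.toAlgebra
  have _ : IsScalarTower ℚ E L := IsScalarTower.of_algebraMap_eq fun x => by
    rw [RingHom.algebraMap_toAlgebra]
    exact (map_ratCast f x).symm
  exact ⟨_, (finrank_mul_finrank ℚ E L).symm⟩

/-- CM subfields of a Galois CM field of degree at most six are Galois. -/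
theorem gal_sub (P : CMPair) {L : Type} [Field L] [NumberField L] [IsGalois ℚ L]
    (hL : finrank ℚ L ≤ 6) (f : P.E →+* L) : finrank ℚ P.E ≤ 6 ∧ IsGalois ℚ P.E := by
  have h1 := finrank_dvd f
  have h0 : 0 < finrank ℚ L := finrank_pos
  have h2 : finrank ℚ P.E ≤ finrank ℚ L := Nat.le_of_dvd h0 h1
  refine ⟨h2.trans hL, ?_⟩
  have h3 := finrank_pair P
  have h4 : 0 < finrank ℚ P.E := finrank_pos
  have h5 : finrank ℚ P.E = 2 ∨ finrank ℚ P.E = finrank ℚ L := by
    obtain ⟨c, hc⟩ := h1
    have : finrank ℚ P.E ≤ 6 := h2.trans hL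
    rcases Nat.lt_or_ge 1 c with hc1 | hc1
    · left
      have h6 : finrank ℚ P.E * 2 ≤ finrank ℚ P.E * c := Nat.mul_le_mul_left _ hc1
      omega
    · right
      have : c = 1 := by
        rcases Nat.eq_zero_or_pos c with h | h
        · rw [h, mul_zero] at hc
          omega
        · omega
      rw [hc, this, mul_one]
  rcases h5 with h5 | h5
  · have : Algebra.IsQuadraticExtension ℚ P.E := ⟨h5⟩
    infer_instance
  · have hb : Function.Bijective f := by
      refine ⟨f.injective, ?_⟩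
      have hlin : Function.Surjective (f.toRatAlgHom.toLinearMap) :=
        (LinearMap.injective_iff_surjective_of_finrank_eq_finrank h5).1 f.injective
      exact hlin
    exact IsGalois.of_algEquiv (AlgEquiv.ofBijective f.toRatAlgHom hb).symm

theorem t_HCB : S_HCB := by
  intro K J _ T b hI hb 𝒜 C hC
  obtain ⟨I, F⟩ := C
  have hC' : ∀ i : I, ∃ k, F i = T k := hC
  clear hC
  choose k hk using hC'
  obtain rfl : F = fun i => T (k i) := funext hk
  have hX : IndependentBlocks ⟨I, fun i => T (k i)⟩ fun i => b (k i) := by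
    refine ⟨fun j => ?_, fun j => ?_⟩
    · rcases hb j with hS | ⟨L, _, _, _, ⟨hG, hs, -⟩, hL⟩
      · classical
        refine .nondegenerate ⟨{k : K // b k = j}, fun k => T k.1⟩ ?_ fun i hi =>
          ⟨⟨k i, hi⟩, sameType_refl _⟩
        intro a ha i φ
        by_cases hφ : φ ∈ (T i.1).Φ
        · exact nondeg_aux hS {k : K // b k = j} Subtype.val Subtype.val_injective
            (fun i => i.2) a ha i φ hφ
        · have hφ' : ComplexEmbedding.conjugate φ ∈ (T i.1).Φ := by
            by_contra hcon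
            exact hφ (((T i.1).isCMType φ).2 hcon)
          have := nondeg_aux hS {k : K // b k = j} Subtype.val Subtype.val_injective
            (fun i => i.2) a ha i _ hφ'
          rw [conj_conj] at this
          exact this.symm
      · haveI := hG
        refine .small (fun i hi => ?_) fun i hi l hl _ => Or.inl ?_
        · obtain ⟨f⟩ := hs (k i) hi
          exact (gal_sub (T (k i)) hL f).1
        · obtain ⟨f⟩ := hs (k i) hi
          exact (gal_sub (T (k i)) hL f).2
    · classical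
      obtain ⟨σ, hσ⟩ := hI fun j' => if j' = j then starRingAut else RingEquiv.refl ℂ
      refine ⟨σ, fun i φ => ⟨fun h => ?_, fun h => ?_⟩⟩
      · rw [hσ (k i) φ]
        simp only [h, if_true]
        rfl
      · rw [hσ (k i) φ]
        simp only [h, if_false]
        rfl
  intro κ _ f hf
  have h2 := (Pool.Agent.W547.UB.isHodge_iff_ring_blocks _ _ hX f).1 hf
  have h3 := ring_alg 𝒜 h2 (av ⟨I, fun i => T (k i)⟩) LinearMap.id LinearMap.id fun v => rfl
  exact h3

end

end Pool.Agent.N615.HX
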